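import Pool.Agent.K7.H50.OG.M0
import Pool.Agent.K7.H11.OG_HER
import Pool.Agent.K7.H11.OG_Y
import Pool.Agent.K7.H13.OG_CONC
import Pool.Agent.K7.H13.OG_FIN
import Pool.Agent.K7.H13.OG_JOIN
import Pool.Agent.K7.H28.OG_A
import Pool.Agent.K7.H28.OG_B
import Pool.Agent.K7.H28.OG_C
import Pool.Agent.K7.H42.OG_M23
import Pool.Agent.K7.H42.OG_N4
import Pool.Agent.K7.H60.OG_SUF
import Pool.Agent.K7.H63.OG_V
import Pool.Agent.K7.H71.OG_F
import Pool.Agent.K7.H79.OG_STAR
import Pool.Agent.K7.H87.OG_MIR
import Pool.Agent.K7.H94.OG_NEC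
import Pool.Agent.K7.H42.OG_S2
import Pool.Agent.K7.H42.OG_S3
import Pool.Agent.K7.H42.OG_V2

set_option autoImplicit false

/-!
# MP_23a060_co: ordered Ramsey goodness is hereditary

For every `n ≥ 1`, every connected ordered subgraph of an `n`-good ordered graph is `n`-good.

Idea. Everything is `1`- and `2`-good. A graph with a joint (a vertex no edge jumps over) is
`n`-good if and only if both sides of the joint are. A connected graph without a joint is `3`-good
if and only if it is a double star `D(a)`: the centres `a` and `a + 1` are adjacent, the vertices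
`< a` are attached to `a + 1` and the vertices `> a + 1` are attached to `a`; for `n ≥ 4` it is
`n`-good if and only if moreover `a = 1` or `a = k - 1` (one-sided star). The colourings that show
that the other graphs are not `3`-good are ordered blow-ups of the cycle of length five.
Connected subgraphs of `D(a)` are again of this form.
-/

namespace Pool.Agent.Results.MP_23a060_co.Heredity

open Pool.Agent.K7.H50.OG

/-- Let `1 ≤ n`. If the ordered graph `G` is `n`-good and `H` is connected and has an ordered copy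
in `G`, then `H` is `n`-good. -/
theorem result (n h k : ℕ) (H : SimpleGraph (Fin h)) (G : SimpleGraph (Fin k)) (hn : 1 ≤ n)
    (hG : NGood n G) (hH : H.Connected) (hc : OCopy H G) : NGood n H :=
  have hMir := Pool.Agent.K7.H87.OG.stMir
  have hM23 : StM23 := Pool.Agent.K7.H42.OG.stM23 Pool.Agent.K7.H42.OG.stV2
  have hM1 : StM1 := stM1 hMir Pool.Agent.K7.H63.OG.stVA Pool.Agent.K7.H63.OG.stVB
    Pool.Agent.K7.H63.OG.stVC
  have hM0 : StM0 := stM0 hMir Pool.Agent.K7.H42.OG2.stS2 Pool.Agent.K7.H42.OG.stS3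
    Pool.Agent.K7.H11.OGY.stY
  have hNec : StNec := Pool.Agent.K7.H94.OG.nec hMir Pool.Agent.K7.H28.OGA.t Pool.Agent.K7.H28.OGB.t
    Pool.Agent.K7.H28.OGC.t Pool.Agent.K7.H87.OG.stE Pool.Agent.K7.H71.OG.stF hM23 hM1 hM0
  have hHer : StHer := Pool.Agent.K7.H11.OGHER.her hNec stDead Pool.Agent.K7.H60.OG.stSuf
    Pool.Agent.K7.H79.OG.stStar Pool.Agent.K7.H42.OG.stN4 Pool.Agent.K7.H87.OG.stMon
    Pool.Agent.K7.H13.OG.stJoin Pool.Agent.K7.H13.OG.stConc
  Pool.Agent.K7.H13.OG.stFin hHer n h k H G hn hG hH hc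

end Pool.Agent.Results.MP_23a060_co.Heredity
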